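import Mathlib
import Pool.Agent.Helper15.UH.Goals

set_option autoImplicit false

namespace UnrCoh.H24

open scoped Pointwise
open IsLocalRing

section basic

variable {L K : Type} [Field L] [Field K] [Algebra L K]

/-- the ring hom `W ∩ L → W` -/
def toW (W : ValuationSubring K) : (W.comap (algebraMap L K)) →+* W :=
  ((algebraMap L K).comp (W.comap (algebraMap L K)).subtype).codRestrict W.toSubring
    (fun x => ValuationSubring.mem_comap.mp x.2)

theorem int_mem (W : ValuationSubring K) {v : K}
    (h : IsIntegral (W.comap (algebraMap L K)) v) : v ∈ W := by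
  have h2 : IsIntegral W v := by
    obtain ⟨p, hp, hv⟩ := h
    refine ⟨p.map (toW W), hp.map _, ?_⟩
    rw [Polynomial.eval₂_map]
    exact hv
  have h3 := IsIntegrallyClosed.isIntegral_iff (R := W) (K := K) |>.mp h2
  obtain ⟨y, hy⟩ := h3
  rw [← hy]
  exact y.2

theorem int_map (W : ValuationSubring K) (σ : K ≃ₐ[L] K) {v : K}
    (h : IsIntegral (W.comap (algebraMap L K)) v) :
    IsIntegral (W.comap (algebraMap L K)) (σ v) := by
  obtain ⟨p, hp, hv⟩ := h
  refine ⟨p, hp, ?_⟩
  have h1 : (algebraMap (W.comap (algebraMap L K)) K) =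
      ((σ : K ≃ₐ[L] K) : K →+* K).comp (algebraMap (W.comap (algebraMap L K)) K) := by
    ext x
    change algebraMap L K (x : L) = σ (algebraMap L K (x : L))
    simp
  rw [h1]
  change Polynomial.eval₂ (((σ : K ≃ₐ[L] K) : K →+* K).comp
    (algebraMap (W.comap (algebraMap L K)) K)) (((σ : K ≃ₐ[L] K) : K →+* K) v) p = 0
  rw [← Polynomial.hom_eval₂, hv, map_zero]

theorem int_inv (W : ValuationSubring K) {v : K}
    (h : IsIntegral (W.comap (algebraMap L K)) v) (hv : W.valuation v = 1) :
    ∃ u : K, IsIntegral (W.comap (algebraMap L K)) u ∧ W.valuation (v * u - 1) < 1 := by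
  set V := W.comap (algebraMap L K) with hV
  let B := integralClosure V K
  let ι : B →+* W := (B.val.toRingHom).codRestrict W.toSubring (fun x => int_mem W x.2)
  have hι : ∀ x : B, ((ι x : W) : K) = x := fun x => rfl
  let P : Ideal B := (maximalIdeal W).comap ι
  have hP : P.IsPrime := Ideal.comap_isPrime ι _
  have hmem : ∀ x : B, x ∈ P ↔ W.valuation (x : K) < 1 := by
    intro x
    rw [Ideal.mem_comap, ValuationSubring.valuation_lt_one_iff]
    rfl
  have hmax : (P.comap (algebraMap V B)).IsMaximal := by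
    have : P.comap (algebraMap V B) = maximalIdeal V := by
      ext x
      rw [Ideal.mem_comap, hmem]
      change W.valuation (algebraMap L K (x : L)) < 1 ↔ _
      rw [IsLocalRing.mem_maximalIdeal, _root_.mem_nonunits_iff]
      constructor
      · intro hx hu
        obtain ⟨y, hy⟩ := hu.exists_right_inv
        have hy2 : (x : L) * (y : L) = 1 := by
          have := congrArg (fun z : V => (z : L)) hy
          simpa using this
        have h3 : W.valuation (algebraMap L K (x : L)) * W.valuation (algebraMap L K (y : L)) = 1 := by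
          rw [← map_mul, ← map_mul, hy2, map_one, map_one]
        have h4 : W.valuation (algebraMap L K (y : L)) ≤ 1 :=
          (W.valuation_le_one_iff _).mpr (ValuationSubring.mem_comap.mp y.2)
        have : W.valuation (algebraMap L K (x : L)) * W.valuation (algebraMap L K (y : L)) < 1 :=
          lt_of_le_of_lt (mul_le_of_le_one_right' h4) hx
        exact absurd h3 this.ne
      · intro hx
        by_contra hlt
        apply hx
        have h1 : W.valuation (algebraMap L K (x : L)) = 1 :=
          le_antisymm ((W.valuation_le_one_iff _).mpr (ValuationSubring.mem_comap.mp x.2))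
            (not_lt.mp hlt)
        have hx0 : (x : L) ≠ 0 := by
          intro h0
          rw [h0, map_zero, map_zero] at h1
          exact zero_ne_one h1
        have hinv : (x : L)⁻¹ ∈ V := by
          change algebraMap L K ((x : L)⁻¹) ∈ W
          rw [← W.valuation_le_one_iff, map_inv₀, map_inv₀, h1, inv_one]
        refine IsUnit.of_mul_eq_one (⟨(x : L)⁻¹, hinv⟩ : V) ?_
        apply Subtype.ext
        exact mul_inv_cancel₀ hx0
    rw [this]
    infer_instance
  have hPm : P.IsMaximal := Ideal.isMaximal_of_isIntegral_of_isMaximal_comap P hmax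
  let vB : B := ⟨v, h⟩
  have hvP : vB ∉ P := by
    rw [hmem]
    change ¬ W.valuation v < 1
    rw [hv]
    exact lt_irrefl _
  obtain ⟨u, hu⟩ := hPm.exists_inv hvP
  obtain ⟨i, hi, hui⟩ := hu
  refine ⟨u, u.2, ?_⟩
  have h5 : (u : K) * v + (i : K) = 1 := by
    have := congrArg (fun z : B => (z : K)) hui
    simpa using this
  have h6 : v * u - 1 = -(i : K) := by linear_combination h5
  rw [h6, Valuation.map_neg]
  exact (hmem i).mp hi

/-- every residue class of `W` is represented by an integral element -/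
theorem int_lift (hBP : S_BP) [Algebra.IsAlgebraic L K] (W : ValuationSubring K) {z : K}
    (hz : z ∈ W) :
    ∃ y : K, IsIntegral (W.comap (algebraMap L K)) y ∧ W.valuation (y - z) < 1 := by
  obtain ⟨v, hv, hv1, hvz⟩ := hBP L K inferInstance W z hz
  obtain ⟨u, hu, hu1⟩ := int_inv W hv hv1
  refine ⟨v * z * u, hvz.mul hu, ?_⟩
  have : v * z * u - z = z * (v * u - 1) := by ring
  rw [this, map_mul]
  exact mul_lt_of_le_one_of_lt ((W.valuation_le_one_iff _).mpr hz) hu1

/-- separating element for `σ` outside the decomposition group -/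
theorem exists_sep (hBP : S_BP) [FiniteDimensional L K] (W : ValuationSubring K)
    (σ : K ≃ₐ[L] K) (hσ : ¬ ∀ z : K, σ z ∈ W ↔ z ∈ W) :
    ∃ e : K, IsIntegral (W.comap (algebraMap L K)) e ∧ W.valuation e = 1 ∧
      W.valuation (σ e) < 1 := by
  by_contra hcon
  push Not at hcon
  have h1 : ∀ e : K, IsIntegral (W.comap (algebraMap L K)) e → W.valuation e = 1 →
      W.valuation (σ e) = 1 := fun e he he1 =>
    le_antisymm ((W.valuation_le_one_iff _).mpr (int_mem W (int_map W σ he))) (hcon e he he1)
  have h2 : ∀ x ∈ W, σ x ∈ W := by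
    intro x hx
    obtain ⟨v, hv, hv1, hvx⟩ := hBP L K inferInstance W x hx
    have h3 := h1 v hv hv1
    have h4 : σ (v * x) ∈ W := int_mem W (int_map W σ hvx)
    rw [← W.valuation_le_one_iff, map_mul, map_mul, h3, one_mul] at h4
    exact (W.valuation_le_one_iff _).mp h4
  have h3 : ∀ (n : ℕ), ∀ x ∈ W, (σ ^ n) x ∈ W := by
    intro n
    induction n with
    | zero => intro x hx; simpa using hx
    | succ n ih =>
      intro x hx
      rw [pow_succ']
      exact h2 _ (ih x hx)
  apply hσ
  intro z
  refine ⟨fun hz => ?_, h2 z⟩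
  have h4 : (σ ^ (orderOf σ - 1)) (σ z) = z := by
    have h5 : σ ^ (orderOf σ - 1) * σ = 1 := by
      rw [← pow_succ, Nat.sub_add_cancel (orderOf_pos σ), pow_orderOf_eq_one]
    have := congrArg (fun τ : K ≃ₐ[L] K => τ z) h5
    simpa using this
  rw [← h4]
  exact h3 _ _ hz

/-- generic element of the residue field with respect to a finite group -/
theorem exists_generic (D k : Type) [Group D] [Finite D] [Field k] [MulSemiringAction D k]
    [Infinite k] (h2 : (2 : k) ≠ 0) :
    ∃ x : k, x ≠ 0 ∧ ∀ σ : D, (∃ y : k, σ • y ≠ y) → σ • x ≠ x ∧ σ • x ≠ -x := by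
  classical
  cases nonempty_fintype D
  let k0 := FixedPoints.subfield D k
  have hinf : Infinite k0 := by
    by_contra hfin
    rw [not_infinite_iff_finite] at hfin
    have := hfin
    have : Finite k := Module.finite_of_finite k0
    exact not_finite k
  -- the linear maps
  let f : D → (k →ₗ[k0] k) := fun σ =>
    { toFun := fun x => σ • x
      map_add' := fun x y => smul_add σ x y
      map_smul' := fun c x => by
        change σ • ((c : k) * x) = (c : k) * σ • x
        rw [smul_mul']
        congr 1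
        exact c.2 σ }
  let s : Finset (Submodule k0 k) :=
    ({⊥} : Finset (Submodule k0 k)) ∪
      ((Finset.univ.filter (fun σ : D => ∃ y : k, σ • y ≠ y)).image
        (fun σ => LinearMap.ker (f σ - LinearMap.id))) ∪
      ((Finset.univ.filter (fun σ : D => ∃ y : k, σ • y ≠ y)).image
        (fun σ => LinearMap.ker (f σ + LinearMap.id)))
  have hs : (⊤ : Submodule k0 k) ∉ s := by
    intro htop
    simp only [s, Finset.mem_union, Finset.mem_singleton, Finset.mem_image, Finset.mem_filter,
      Finset.mem_univ, true_and] at htop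
    rcases htop with (h | ⟨σ, ⟨y, hy⟩, h⟩) | ⟨σ, ⟨y, hy⟩, h⟩
    · have h1 : (1 : k) ∈ (⊤ : Submodule k0 k) := Submodule.mem_top
      rw [h, Submodule.mem_bot] at h1
      exact one_ne_zero h1
    · have h1 : y ∈ (⊤ : Submodule k0 k) := Submodule.mem_top
      rw [← h, LinearMap.mem_ker] at h1
      apply hy
      have h3 : σ • y - y = 0 := h1
      exact sub_eq_zero.mp h3
    · have h1 : (1 : k) ∈ (⊤ : Submodule k0 k) := Submodule.mem_top
      rw [← h, LinearMap.mem_ker] at h1
      have h3 : σ • (1 : k) + 1 = 0 := h1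
      rw [smul_one] at h3
      apply h2
      rw [← h3]
      norm_num
  have hcov := Subspace.biUnion_ne_univ_of_top_notMem hs
  obtain ⟨x, hx⟩ := (Set.ne_univ_iff_exists_notMem _).mp hcov
  simp only [Set.mem_iUnion, SetLike.mem_coe, not_exists] at hx
  refine ⟨x, ?_, ?_⟩
  · intro h0
    refine hx ⊥ ?_ ?_
    · simp [s]
    · rw [h0]
      exact Submodule.zero_mem _
  · intro σ hσ
    constructor
    · intro h
      refine hx (LinearMap.ker (f σ - LinearMap.id)) ?_ ?_
      · simp only [s, Finset.mem_union, Finset.mem_image, Finset.mem_filter, Finset.mem_univ,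
          true_and]
        exact Or.inl (Or.inr ⟨σ, hσ, rfl⟩)
      · rw [LinearMap.mem_ker]
        change σ • x - x = 0
        rw [h, sub_self]
    · intro h
      refine hx (LinearMap.ker (f σ + LinearMap.id)) ?_ ?_
      · simp only [s, Finset.mem_union, Finset.mem_image, Finset.mem_filter, Finset.mem_univ,
          true_and]
        exact Or.inr ⟨σ, hσ, rfl⟩
      · rw [LinearMap.mem_ker]
        change σ • x + x = 0
        rw [h, neg_add_cancel]

/-- a good element of `W` -/
theorem exists_good [FiniteDimensional L K] (W : ValuationSubring K)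
    (h2 : W.valuation 2 = 1) (hinf : Infinite (IsLocalRing.ResidueField W)) :
    ∃ x : K, W.valuation x = 1 ∧ ∀ σ : K ≃ₐ[L] K, (∀ z : K, σ z ∈ W ↔ z ∈ W) →
      (∃ z ∈ W, ¬ W.valuation (σ z - z) < 1) →
      W.valuation (σ x - x) = 1 ∧ W.valuation (σ x + x) = 1 := by
  have h2k : (2 : ResidueField W) ≠ 0 := by
    intro h0
    have h3 : residue W (2 : W) = 0 := by rw [map_ofNat]; exact h0
    rw [residue_eq_zero_iff, ValuationSubring.valuation_lt_one_iff] at h3
    have h4 : W.valuation ((2 : W) : K) = 1 := h2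
    rw [h4] at h3
    exact lt_irrefl _ h3
  obtain ⟨xb, hxb0, hxb⟩ := exists_generic (W.decompositionSubgroup L) (ResidueField W) h2k
  obtain ⟨x, rfl⟩ := residue_surjective xb
  have hres : ∀ y : W, residue W y ≠ 0 → W.valuation (y : K) = 1 := by
    intro y hy
    have h3 : ¬ W.valuation (y : K) < 1 := by
      intro h4
      apply hy
      rw [residue_eq_zero_iff, ValuationSubring.valuation_lt_one_iff]
      exact h4
    exact le_antisymm ((W.valuation_le_one_iff _).mpr y.2) (not_lt.mp h3)
  refine ⟨x, hres x hxb0, ?_⟩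
  intro σ hσ hz
  have hst : σ ∈ W.decompositionSubgroup L := by
    rw [MulAction.mem_stabilizer_iff]
    ext z
    rw [ValuationSubring.mem_pointwise_smul_iff_inv_smul_mem]
    change σ⁻¹ z ∈ W ↔ z ∈ W
    rw [← hσ (σ⁻¹ z)]
    have : σ (σ⁻¹ z) = z := by
      simp
    rw [this]
  let τ : W.decompositionSubgroup L := ⟨σ, hst⟩
  have hτ : ∀ y : W, ((τ • y : W) : K) = σ y := fun y => rfl
  have hne : ∃ y : ResidueField W, τ • y ≠ y := by
    obtain ⟨z, hzW, hz1⟩ := hz
    refine ⟨residue W ⟨z, hzW⟩, ?_⟩
    intro h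
    apply hz1
    rw [← ResidueField.residue_smul, ← sub_eq_zero, ← map_sub, residue_eq_zero_iff,
      ValuationSubring.valuation_lt_one_iff] at h
    exact h
  obtain ⟨h5, h6⟩ := hxb τ hne
  constructor
  · have h7 : residue W (τ • x - x) ≠ 0 := by
      rw [map_sub, ResidueField.residue_smul, sub_ne_zero]
      exact h5
    exact hres _ h7
  · have h7 : residue W (τ • x + x) ≠ 0 := by
      rw [map_add, ResidueField.residue_smul]
      intro h8
      exact h6 (eq_neg_of_add_eq_zero_left h8)
    exact hres _ h7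

theorem val_prod_lt {ι : Type} (W : ValuationSubring K) (s : Finset ι) (f : ι → K)
    (h : W.valuation (∏ i ∈ s, f i) < 1) : ∃ i ∈ s, W.valuation (f i) < 1 := by
  by_contra hcon
  push Not at hcon
  rw [map_prod] at h
  exact absurd (Finset.one_le_prod' hcon) (not_le.mpr h)

theorem val_pow_ne {W : ValuationSubring K} {x : K} (hx : W.valuation x ≤ 1) (n : ℕ) :
    W.valuation (x ^ n) ≤ 1 := by
  rw [map_pow]
  exact pow_le_one' hx n

/-- PACKET INER. -/
theorem iner (hBP : S_BP) : S_INER := by
  classical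
  intro L K _ _ _ hfd hgal W hW2 hinf β b hb0 hβ hval
  have := hfd
  have := hgal
  have hβ0 : β ≠ 0 := by
    intro h0
    rw [h0, zero_pow two_ne_zero] at hβ
    exact hb0 ((map_eq_zero (algebraMap L K)).mp hβ.symm)
  -- the sign
  have hsign : ∀ σ : K ≃ₐ[L] K, σ β = β ∨ σ β = -β := by
    intro σ
    have h1 : (σ β) ^ 2 = β ^ 2 := by rw [← map_pow, hβ, AlgEquiv.commutes]
    exact sq_eq_sq_iff_eq_or_eq_neg.mp h1
  let χ : (K ≃ₐ[L] K) → K := fun σ => if σ β = β then 1 else -1
  have hχ : ∀ σ, σ β = χ σ * β := by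
    intro σ
    by_cases h : σ β = β
    · simp [χ, h]
    · simp only [χ, h, if_false]
      rcases hsign σ with h1 | h1
      · exact absurd h1 h
      · rw [h1]; ring
  have hχ2 : ∀ σ, χ σ = 1 ∨ χ σ = -1 := by
    intro σ
    by_cases h : σ β = β
    · left; simp [χ, h]
    · right; simp [χ, h]
  have hχW : ∀ σ, W.valuation (χ σ) = 1 := by
    intro σ
    rcases hχ2 σ with h | h <;> rw [h]
    · exact map_one _
    · rw [Valuation.map_neg, map_one]
  -- the good element
  obtain ⟨x, hx1, hx⟩ := exists_good (L := L) W hW2 hinf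
  -- the separating element
  have hsep : ∀ σ : K ≃ₐ[L] K, ∃ e : K, IsIntegral (W.comap (algebraMap L K)) e ∧
      W.valuation e = 1 ∧ ((¬ ∀ z : K, σ z ∈ W ↔ z ∈ W) → W.valuation (σ e) < 1) := by
    intro σ
    by_cases h : ∀ z : K, σ z ∈ W ↔ z ∈ W
    · exact ⟨1, isIntegral_one, map_one _, fun h' => absurd h h'⟩
    · obtain ⟨e, he, he1, he2⟩ := exists_sep hBP W σ h
      exact ⟨e, he, he1, fun _ => he2⟩
  choose ee hee1 hee2 hee3 using hsep
  let e : K := ∏ σ, ee σ
  have he : IsIntegral (W.comap (algebraMap L K)) e := IsIntegral.prod _ fun σ _ => hee1 σ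
  have he1 : W.valuation e = 1 := by
    rw [map_prod]
    exact Finset.prod_eq_one fun σ _ => hee2 σ
  have he2 : ∀ σ : K ≃ₐ[L] K, (¬ ∀ z : K, σ z ∈ W ↔ z ∈ W) → W.valuation (σ e) < 1 := by
    intro σ hσ
    rw [map_prod, map_prod, ← Finset.mul_prod_erase _ _ (Finset.mem_univ σ)]
    refine mul_lt_of_lt_of_le_one (hee3 σ hσ) ?_
    refine Finset.prod_le_one' fun τ _ => ?_
    exact (W.valuation_le_one_iff _).mpr (int_mem W (int_map W σ (hee1 τ)))
  have he0 : e ≠ 0 := by
    intro h0
    rw [h0, map_zero] at he1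
    exact zero_ne_one he1
  -- theta
  have hzW : x * e⁻¹ ∈ W := by
    rw [← W.valuation_le_one_iff, map_mul, map_inv₀, hx1, he1, inv_one, one_mul]
  obtain ⟨y, hy, hy1⟩ := int_lift (L := L) hBP W hzW
  let θ : K := y * e
  have hθint : IsIntegral (W.comap (algebraMap L K)) θ := hy.mul he
  have hθx : W.valuation (θ - x) < 1 := by
    have h1 : θ - x = (y - x * e⁻¹) * e := by
      have : x = x * e⁻¹ * e := by rw [mul_assoc, inv_mul_cancel₀ he0, mul_one]
      calc θ - x = y * e - x := rfl
        _ = y * e - x * e⁻¹ * e := by rw [← this]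
        _ = _ := by ring
    rw [h1, map_mul, he1, mul_one]
    exact hy1
  have hθW : ∀ σ : K ≃ₐ[L] K, W.valuation (σ θ) ≤ 1 := fun σ =>
    (W.valuation_le_one_iff _).mpr (int_mem W (int_map W σ hθint))
  have hθout : ∀ σ : K ≃ₐ[L] K, (¬ ∀ z : K, σ z ∈ W ↔ z ∈ W) → W.valuation (σ θ) < 1 := by
    intro σ hσ
    change W.valuation (σ (y * e)) < 1
    rw [map_mul, map_mul]
    exact mul_lt_of_le_one_of_lt
      ((W.valuation_le_one_iff _).mpr (int_mem W (int_map W σ hy))) (he2 σ hσ)
  have hθ1 : W.valuation θ = 1 := by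
    have h1 : θ = x + (θ - x) := by ring
    rw [h1, Valuation.map_add_eq_of_lt_left]
    · exact hx1
    · rw [hx1]; exact hθx
  -- the polynomials
  let n := Fintype.card (K ≃ₐ[L] K)
  let g : Polynomial K := ∏ σ : K ≃ₐ[L] K, (Polynomial.X - Polynomial.C (χ σ * σ θ))
  let h : Polynomial K := ∏ σ : K ≃ₐ[L] K, (Polynomial.X - Polynomial.C (σ (θ * β)))
  have hgdeg : g.natDegree = n := by
    change (∏ σ : K ≃ₐ[L] K, (Polynomial.X - Polynomial.C (χ σ * σ θ))).natDegree = n
    rw [Polynomial.natDegree_prod_of_monic _ _ fun σ _ => Polynomial.monic_X_sub_C _]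
    simp only [Polynomial.natDegree_X_sub_C, Finset.sum_const, Finset.card_univ, smul_eq_mul,
      mul_one]
    rfl
  -- coefficients of g lie in W
  have hgW : ∀ k, W.valuation (g.coeff k) ≤ 1 := by
    intro k
    have hmem : ∀ σ : K ≃ₐ[L] K, χ σ * σ θ ∈ W := by
      intro σ
      rw [← W.valuation_le_one_iff, map_mul, hχW, one_mul]
      exact hθW σ
    have h1 : g = Polynomial.map W.subtype
        (∏ σ : K ≃ₐ[L] K, (Polynomial.X - Polynomial.C (⟨χ σ * σ θ, hmem σ⟩ : W))) := by
      rw [Polynomial.map_prod]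
      refine Finset.prod_congr rfl fun σ _ => ?_
      rw [Polynomial.map_sub, Polynomial.map_X, Polynomial.map_C]
      rfl
    rw [h1, Polynomial.coeff_map, W.valuation_le_one_iff]
    exact Subtype.property _
  -- coefficients of h lie in L
  have hhL : ∀ k, ∃ l : L, algebraMap L K l = h.coeff k := by
    intro k
    have h1 : ∀ τ : K ≃ₐ[L] K, τ (h.coeff k) = h.coeff k := by
      intro τ
      have h2 : Polynomial.map (τ : K →+* K) h = h := by
        change Polynomial.map (τ : K →+* K)
          (∏ σ : K ≃ₐ[L] K, (Polynomial.X - Polynomial.C (σ (θ * β)))) =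
          ∏ σ : K ≃ₐ[L] K, (Polynomial.X - Polynomial.C (σ (θ * β)))
        rw [Polynomial.map_prod]
        refine Fintype.prod_equiv (Equiv.mulLeft τ) _ _ fun σ => ?_
        rw [Polynomial.map_sub, Polynomial.map_X, Polynomial.map_C]
        rfl
      have h3 := congrArg (fun q : Polynomial K => q.coeff k) h2
      simp only [Polynomial.coeff_map] at h3
      exact h3
    exact (IsGalois.mem_range_algebraMap_iff_fixed (h.coeff k)).mpr h1
  have hcomp : h.comp (Polynomial.C β * Polynomial.X) = Polynomial.C (β ^ n) * g := by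
    change (∏ σ : K ≃ₐ[L] K, (Polynomial.X - Polynomial.C (σ (θ * β)))).comp _ =
      Polynomial.C (β ^ n) * ∏ σ : K ≃ₐ[L] K, (Polynomial.X - Polynomial.C (χ σ * σ θ))
    rw [Polynomial.prod_comp]
    have h1 : Polynomial.C (β ^ n) = ∏ _σ : K ≃ₐ[L] K, Polynomial.C β := by
      rw [Finset.prod_const, Finset.card_univ, Polynomial.C_pow]
    rw [h1, ← Finset.prod_mul_distrib]
    refine Finset.prod_congr rfl fun σ _ => ?_
    rw [Polynomial.sub_comp, Polynomial.X_comp, Polynomial.C_comp, mul_sub, ← Polynomial.C_mul]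
    congr 2
    rw [map_mul, hχ σ]
    ring
  have hcoef : ∀ k, h.coeff k * β ^ k = β ^ n * g.coeff k := by
    intro k
    have h1 := congrArg (fun q : Polynomial K => q.coeff k) hcomp
    simp only [Polynomial.comp_C_mul_X_coeff, Polynomial.coeff_C_mul] at h1
    exact h1
  have hodd : ∀ k ≤ n, Odd (n - k) → W.valuation (g.coeff k) < 1 := by
    intro k hk ho
    obtain ⟨m, hm⟩ := ho
    obtain ⟨l, hl⟩ := hhL k
    have h1 : g.coeff k = β * algebraMap L K (l / b ^ (m + 1)) := by
      have h2 := hcoef k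
      rw [← hl] at h2
      have h3 : β ^ n = β ^ k * (β * algebraMap L K b ^ m) := by
        rw [← hβ, ← pow_mul, ← pow_succ', ← pow_add]
        congr 1
        omega
      rw [h3] at h2
      have h4 : algebraMap L K l = β * algebraMap L K b ^ m * g.coeff k := by
        have hk0 : β ^ k ≠ 0 := pow_ne_zero _ hβ0
        have h5 : algebraMap L K l * β ^ k = (β * algebraMap L K b ^ m * g.coeff k) * β ^ k := by
          rw [h2]; ring
        exact mul_right_cancel₀ hk0 h5
      have hb0' : algebraMap L K b ≠ 0 := (map_ne_zero (algebraMap L K)).mpr hb0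
      rw [map_div₀, map_pow, h4, ← hβ]
      field_simp
      ring
    by_cases hl0 : l = 0
    · rw [h1, hl0, zero_div, map_zero, mul_zero, map_zero]
      exact zero_lt_one
    · have h2 := hval (l / b ^ (m + 1)) (div_ne_zero hl0 (pow_ne_zero _ hb0))
      rw [← h1] at h2
      exact lt_of_le_of_ne (hgW k) h2
  -- evaluation
  have hg0 : g.eval θ = 0 := by
    change (∏ σ : K ≃ₐ[L] K, (Polynomial.X - Polynomial.C (χ σ * σ θ))).eval θ = 0
    rw [Polynomial.eval_prod]
    refine Finset.prod_eq_zero (Finset.mem_univ (1 : K ≃ₐ[L] K)) ?_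
    have h1 : χ 1 = 1 := by simp [χ]
    rw [Polynomial.eval_sub, Polynomial.eval_X, Polynomial.eval_C, h1]
    simp
  have hgneg : W.valuation (g.eval (-θ)) < 1 := by
    have h1 : g.eval (-θ) = ∑ k ∈ Finset.range (n + 1),
        g.coeff k * θ ^ k * ((-1) ^ k - (-1) ^ n) := by
      have h2 : g.eval (-θ) = g.eval (-θ) - (-1) ^ n * g.eval θ := by rw [hg0]; ring
      rw [h2, Polynomial.eval_eq_sum_range' (n := n + 1) (by omega),
        Polynomial.eval_eq_sum_range' (n := n + 1) (by omega), Finset.mul_sum,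
        ← Finset.sum_sub_distrib]
      refine Finset.sum_congr rfl fun k _ => ?_
      rw [neg_pow]
      ring
    rw [h1]
    refine Valuation.map_sum_lt _ one_ne_zero fun k hk => ?_
    have hkn : k ≤ n := Nat.lt_succ_iff.mp (Finset.mem_range.mp hk)
    rcases Nat.even_or_odd (n - k) with hev | ho
    · have h3 : ((-1 : K)) ^ k - (-1) ^ n = 0 := by
        have : (-1 : K) ^ n = (-1) ^ k * (-1) ^ (n - k) := by
          rw [← pow_add]
          congr 1
          omega
        rw [this, hev.neg_one_pow, mul_one, sub_self]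
      rw [h3, mul_zero, map_zero]
      exact zero_lt_one
    · rw [map_mul, map_mul]
      refine mul_lt_of_lt_of_le_one (mul_lt_of_lt_of_le_one (hodd k hkn ho) ?_) ?_
      · exact val_pow_ne hθ1.le k
      · refine (Valuation.map_sub _ _ _).trans ?_
        rw [max_le_iff, map_pow, map_pow, Valuation.map_neg, map_one, one_pow, one_pow]
        exact ⟨le_rfl, le_rfl⟩
  have hprod : g.eval (-θ) = ∏ σ : K ≃ₐ[L] K, (-θ - χ σ * σ θ) := by
    change (∏ σ : K ≃ₐ[L] K, (Polynomial.X - Polynomial.C (χ σ * σ θ))).eval (-θ) = _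
    rw [Polynomial.eval_prod]
    refine Finset.prod_congr rfl fun σ _ => ?_
    rw [Polynomial.eval_sub, Polynomial.eval_X, Polynomial.eval_C]
  rw [hprod] at hgneg
  obtain ⟨σ, -, hσ⟩ := val_prod_lt W _ _ hgneg
  -- conclude
  have hD : ∀ z : K, σ z ∈ W ↔ z ∈ W := by
    by_contra hnD
    have h1 := hθout σ hnD
    have h2 : W.valuation (-θ - χ σ * σ θ) = 1 := by
      rw [sub_eq_add_neg, Valuation.map_add_eq_of_lt_left, Valuation.map_neg, hθ1]
      rw [Valuation.map_neg, Valuation.map_neg, map_mul, hχW, one_mul, hθ1]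
      exact h1
    rw [h2] at hσ
    exact lt_irrefl _ hσ
  -- comparison with x
  have hσx : W.valuation (σ θ - σ x) < 1 := by
    have h1 : W.valuation (σ (θ - x)) < 1 := by
      have h3 : ∀ z : K, W.valuation z < 1 → W.valuation (σ z) < 1 := by
        intro z hz
        rw [← ValuationSubring.mem_nonunits_iff, ValuationSubring.mem_nonunits_iff_or] at hz ⊢
        rcases hz with h | h
        · left; rw [h, map_zero]
        · right
          rw [← map_inv₀, hD]
          exact h
      exact h3 _ hθx
    rwa [map_sub] at h1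
  have hI : ∀ z ∈ W, W.valuation (σ z - z) < 1 := by
    by_contra hnI
    push Not at hnI
    obtain ⟨z, hz, hz1⟩ := hnI
    obtain ⟨h1, h2⟩ := hx σ hD ⟨z, hz, not_lt.mpr hz1⟩
    rcases hχ2 σ with h | h
    · rw [h] at hσ
      have h3 : W.valuation (σ x + x) < 1 := by
        have h4 : σ x + x = -((-θ - 1 * σ θ) + ((σ θ - σ x) + (θ - x))) := by ring
        rw [h4, Valuation.map_neg]
        exact Valuation.map_add_lt _ hσ (Valuation.map_add_lt _ hσx hθx)
      rw [h2] at h3
      exact lt_irrefl _ h3
    · rw [h] at hσ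
      have h3 : W.valuation (σ x - x) < 1 := by
        have h4 : σ x - x = (-θ - (-1) * σ θ) - (σ θ - σ x) + (θ - x) := by ring
        rw [h4]
        exact Valuation.map_add_lt _ (Valuation.map_sub_lt _ hσ hσx) hθx
      rw [h1] at h3
      exact lt_irrefl _ h3
  refine ⟨σ, hD, hI, ?_⟩
  rcases hχ2 σ with h | h
  · exfalso
    rw [h] at hσ
    have hθmem : θ ∈ W := (W.valuation_le_one_iff _).mp hθ1.le
    have h1 := hI θ hθmem
    have h3 : W.valuation (2 * θ) < 1 := by
      have h4 : 2 * θ = -((-θ - 1 * σ θ) + (σ θ - θ)) := by ring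
      rw [h4, Valuation.map_neg]
      exact Valuation.map_add_lt _ hσ h1
    rw [map_mul, hW2, hθ1, one_mul] at h3
    exact lt_irrefl _ h3
  · rw [hχ σ, h]
    ring

end basic

end UnrCoh.H24

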